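import Pool.Agent.Helper7.BM.Goals

/-!
# Project BM, packet ROL: Rolle's theorem with multiplicities
-/

namespace Pool.Agent.Helper16.BM

open Finset Pool.Agent.Helper7.BM
open scoped ContDiff

/-- The general form: multiplicities may be zero. -/
lemma rol_aux (a b : ℝ) : ∀ (N : ℕ) (f : ℝ → ℝ) (Z : Finset ℝ) (m : ℝ → ℕ), ContDiff ℝ ∞ f →
    (∀ z ∈ Z, z ∈ Set.Icc a b ∧ ∀ j < m z, iteratedDeriv j f z = 0) → ∑ z ∈ Z, m z = N + 1 →
    ∃ τ ∈ Set.Icc a b, iteratedDeriv N f τ = 0 := by
  intro N
  induction N with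
  | zero =>
    intro f Z m _ hZ hsum
    obtain ⟨z, hz, hm⟩ : ∃ z ∈ Z, m z ≠ 0 := by
      by_contra h
      push Not at h
      rw [Finset.sum_eq_zero h] at hsum
      omega
    exact ⟨z, (hZ z hz).1, (hZ z hz).2 0 (by omega)⟩
  | succ N ih =>
    intro f Z0 m0 hf hZ0 hsum0
    classical
    -- restrict to positive multiplicities
    set Z := Z0.filter (fun z => 1 ≤ m0 z) with hZdef
    have hsum : ∑ z ∈ Z, m0 z = N + 2 := by
      rw [← hsum0, hZdef, Finset.sum_filter]
      refine Finset.sum_congr rfl fun z _ => ?_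
      split_ifs with h
      · rfl
      · omega
    have hZ : ∀ z ∈ Z, z ∈ Set.Icc a b ∧ 1 ≤ m0 z ∧ ∀ j < m0 z, iteratedDeriv j f z = 0 := by
      intro z hz
      rw [hZdef, mem_filter] at hz
      exact ⟨(hZ0 z hz.1).1, hz.2, (hZ0 z hz.1).2⟩
    have hne : Z.Nonempty := by
      rw [Finset.nonempty_iff_ne_empty]
      intro h
      rw [h, Finset.sum_empty] at hsum
      omega
    have hf' := contDiff_infty_iff_deriv.1 hf
    have hf0 : ∀ z ∈ Z, f z = 0 := by
      intro z hz
      have := (hZ z hz).2.2 0 (by have := (hZ z hz).2.1; omega)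
      rwa [iteratedDeriv_zero] at this
    set M := Z.max' hne with hM
    have hMZ : M ∈ Z := Z.max'_mem hne
    -- the Rolle points
    have hw : ∀ z : ℝ, ∃ w : ℝ, z ∈ Z.erase M → (z < w ∧ w ∈ Set.Icc a b ∧ deriv f w = 0 ∧
        ∀ y ∈ Z, z < y → w < y) := by
      intro z
      by_cases hz : z ∈ Z.erase M
      · rw [mem_erase] at hz
        have hzM : z < M := lt_of_le_of_ne (Z.le_max' z hz.2) hz.1
        have hne2 : (Z.filter (fun y => z < y)).Nonempty := ⟨M, mem_filter.2 ⟨hMZ, hzM⟩⟩
        set y0 := (Z.filter (fun y => z < y)).min' hne2 with hy0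
        have hy0m := (Z.filter (fun y => z < y)).min'_mem hne2
        rw [← hy0, mem_filter] at hy0m
        obtain ⟨w, hw1, hw2⟩ := exists_deriv_eq_zero hy0m.2 hf.continuous.continuousOn
          ((hf0 z hz.2).trans (hf0 y0 hy0m.1).symm)
        refine ⟨w, fun _ => ⟨hw1.1, ?_, hw2, ?_⟩⟩
        · have h1 := (hZ z hz.2).1
          have h2 := (hZ y0 hy0m.1).1
          exact ⟨h1.1.trans hw1.1.le, hw1.2.le.trans h2.2⟩
        · intro y hy hzy
          exact hw1.2.trans_le ((Z.filter (fun y => z < y)).min'_le y (mem_filter.2 ⟨hy, hzy⟩))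
      · exact ⟨0, fun h => absurd h hz⟩
    choose w hw using hw
    set W := (Z.erase M).image w with hW
    have hinj : Set.InjOn w (Z.erase M : Finset ℝ) := by
      intro x hx y hy hxy
      have hx' := hw x hx
      have hy' := hw y hy
      rcases lt_trichotomy x y with h | h | h
      · have h1 := hx'.2.2.2 y (Finset.mem_of_mem_erase hy) h
        rw [hxy] at h1
        exact absurd h1 (not_lt.2 hy'.1.le)
      · exact h
      · have h1 := hy'.2.2.2 x (Finset.mem_of_mem_erase hx) h
        rw [← hxy] at h1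
        exact absurd h1 (not_lt.2 hx'.1.le)
    have hdisj : Disjoint Z W := by
      rw [Finset.disjoint_left]
      intro y hy hyW
      rw [hW, mem_image] at hyW
      obtain ⟨x, hx, rfl⟩ := hyW
      have hx' := hw x hx
      exact lt_irrefl _ (hx'.2.2.2 (w x) hy hx'.1)
    have hWcard : W.card = Z.card - 1 := by
      rw [hW, Finset.card_image_of_injOn hinj, Finset.card_erase_of_mem hMZ]
    have hcpos : 0 < Z.card := Finset.card_pos.2 hne
    let m' : ℝ → ℕ := fun x => if x ∈ W then 1 else m0 x - 1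
    have hsum' : ∑ x ∈ Z ∪ W, m' x = N + 1 := by
      rw [Finset.sum_union hdisj]
      have h1 : ∑ x ∈ Z, m' x = ∑ x ∈ Z, (m0 x - 1) := by
        refine Finset.sum_congr rfl fun x hx => ?_
        change (if x ∈ W then 1 else m0 x - 1) = _
        rw [if_neg (Finset.disjoint_left.1 hdisj hx)]
      have h2 : ∑ x ∈ W, m' x = W.card := by
        rw [Finset.card_eq_sum_ones]
        refine Finset.sum_congr rfl fun x hx => ?_
        change (if x ∈ W then 1 else m0 x - 1) = _
        rw [if_pos hx]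
      have h3 : ∑ x ∈ Z, (m0 x - 1) + Z.card = N + 2 := by
        rw [← hsum, Finset.card_eq_sum_ones, ← Finset.sum_add_distrib]
        refine Finset.sum_congr rfl fun x hx => ?_
        have := (hZ x hx).2.1
        omega
      rw [h1, h2, hWcard]
      omega
    obtain ⟨τ, hτ, h0⟩ := ih (deriv f) (Z ∪ W) m' hf'.2 (by
      intro x hx
      by_cases hxW : x ∈ W
      · have hxW' := hxW
        rw [hW, mem_image] at hxW'
        obtain ⟨z, hz, rfl⟩ := hxW'
        refine ⟨(hw z hz).2.1, ?_⟩
        intro j hj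
        change j < (if w z ∈ W then 1 else m0 (w z) - 1) at hj
        rw [if_pos hxW] at hj
        have hj0 : j = 0 := by omega
        subst hj0
        rw [iteratedDeriv_zero]
        exact (hw z hz).2.2.1
      · have hxZ : x ∈ Z := (mem_union.1 hx).resolve_right hxW
        refine ⟨(hZ x hxZ).1, ?_⟩
        intro j hj
        change j < (if x ∈ W then 1 else m0 x - 1) at hj
        rw [if_neg hxW] at hj
        rw [← iteratedDeriv_succ']
        exact (hZ x hxZ).2.2 (j + 1) (by omega)) hsum'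
    refine ⟨τ, hτ, ?_⟩
    rw [iteratedDeriv_succ']
    exact h0

theorem rol : StmtROL := by
  intro f Z m a b hf hne hZ
  have hpos : 1 ≤ ∑ z ∈ Z, m z := by
    obtain ⟨z, hz⟩ := hne
    exact (hZ z hz).2.1.trans (Finset.single_le_sum (fun _ _ => Nat.zero_le _) hz)
  obtain ⟨N, hN⟩ : ∃ N, ∑ z ∈ Z, m z = N + 1 := ⟨_, (Nat.sub_add_cancel hpos).symm⟩
  rw [hN, Nat.add_sub_cancel]
  exact rol_aux a b N f Z m hf (fun z hz => ⟨(hZ z hz).1, (hZ z hz).2.2⟩) hN

end Pool.Agent.Helper16.BM
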